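import Pool.Agent.W998.KG.Reg4
import Pool.Agent.W153.KG.MFA
import Pool.Agent.W156.KG.MFB
import Pool.Agent.W411.KG.TAS
import Pool.Agent.W992.KG.TRE
import Pool.Agent.W733.KG.CLS
import Pool.Agent.W592.KG.DEG
import Pool.Agent.W33.KG.EVN
import Pool.Agent.W2.KG.AND
import Pool.Agent.W384.KG.MOR

set_option autoImplicit false

namespace Pool.Agent.Results.MP_633d19_co.LargeDegree

open Pool.Agent.Results.MP_633d19_co.SmallDegree
open Pool.Agent.Results.MP_633d19_co.SmallDegree.MGraph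
open Pool.Agent.W998.KG

/-- The determined range of `(μ, g)`. -/
def Range (μ g : ℕ) : Prop :=
  (g = 4 ∧ (14 ≤ μ ∨ (7 ≤ μ ∧ μ % 2 = 1))) ∨
  (g = 5 ∧ 3 ≤ μ) ∨
  ((g = 6 ∨ g = 7) ∧ 4 ≤ μ ∧ μ ≠ 5 ∧ μ ≠ 6 ∧ μ ≠ 9) ∨
  (8 ≤ g ∧ 6 * (g / 2) < μ) ∨
  (g % 2 = 1 ∧ 3 * μ ≤ (2 * g - 3) * (⌈(μ : ℚ) / ((g / 2 : ℕ) : ℚ)⌉₊ - 1) + 1) ∨
  (g % 2 = 0 ∧ 3 * μ ≤ (2 * g - 2) * (⌈(μ : ℚ) / ((g / 2 : ℕ) : ℚ)⌉₊ - 1) + 1 ∧
      4 * μ ≤ (3 * g - 5) * (⌈(μ : ℚ) / ((g / 2 : ℕ) : ℚ)⌉₊ - 1) + 1)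

/-- Steffen's bound is attained exactly when `2⌊g/2⌋(⌈μ/⌊g/2⌋⌉ - 1) + 2 ≤ Δ ≤ 2μ`. -/
theorem result (Δ μ g : ℕ) (hg : 3 ≤ g) (hμ : 1 ≤ μ) (hμΔ : μ ≤ Δ) (h : Range μ g) :
    IsGreatest (chromSet Δ μ g) (steffen Δ μ g) ↔
      2 * (g / 2) * (⌈(μ : ℚ) / ((g / 2 : ℕ) : ℚ)⌉₊ - 1) + 2 ≤ Δ ∧ Δ ≤ 2 * μ := by
  have hp0 : (0 : ℚ) < ((g / 2 : ℕ) : ℚ) := by exact_mod_cast (by omega : 0 < g / 2)
  obtain ⟨t, ht⟩ : ∃ t, ⌈(μ : ℚ) / ((g / 2 : ℕ) : ℚ)⌉₊ = t := ⟨_, rfl⟩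
  have ht1 : μ ≤ (g / 2) * t := by
    have h1 : (μ : ℚ) / ((g / 2 : ℕ) : ℚ) ≤ t := by rw [← ht]; exact Nat.le_ceil _
    rw [div_le_iff₀ hp0] at h1
    have : (μ : ℚ) ≤ (((g / 2) * t : ℕ) : ℚ) := by push_cast; linarith
    exact_mod_cast this
  have ht0 : 1 ≤ t := by
    by_contra hcon
    have : t = 0 := by omega
    rw [this] at ht1
    omega
  obtain ⟨T, hT⟩ : ∃ T, t = T + 1 := ⟨t - 1, by omega⟩
  subst hT
  have ht2 : (g / 2) * T < μ := by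
    have h1 : ((T : ℕ) : ℚ) < (μ : ℚ) / ((g / 2 : ℕ) : ℚ) := by
      rw [← Nat.lt_ceil, ht]
      omega
    rw [lt_div_iff₀ hp0] at h1
    have : (((g / 2) * T : ℕ) : ℚ) < (μ : ℚ) := by push_cast; linarith
    exact_mod_cast this
  have hTRE : PartTRE := Pool.Agent.W992.KG.TRE.main Pool.Agent.W411.KG.main
  by_cases h54 : g = 5 ∧ μ = 4
  · obtain ⟨rfl, rfl⟩ := h54
    norm_num at ht1 ht2
    have hT1 : T = 1 := by omega
    subst hT1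
    have hreg : ClosedReg Δ 1 4 5 := @closedReg_four @hTRE Pool.Agent.W733.KG.CLS.main
      Pool.Agent.W592.KG.DEG.main Pool.Agent.W33.KG.EVN.main Pool.Agent.W384.KG.MOR.main
      Pool.Agent.W153.KG.MFA.main Pool.Agent.W156.KG.MFB.main Δ
    exact final_of_reg Δ 4 5 1 (by norm_num) le_rfl hμΔ ht (by norm_num) (by norm_num) hreg
  have key : 4 ≤ g ∧ 1 ≤ T ∧ (Cond g μ T ∨ Reg3 g μ T) := by
    unfold Range at h
    rw [ht, Nat.add_sub_cancel] at h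
    rcases h with ⟨rfl, h1⟩ | ⟨rfl, h1⟩ | ⟨h1, h2, h3, h4, h5⟩ | ⟨h1, h2⟩ | ⟨h1, h2⟩ |
      ⟨h1, h2, h3⟩
    · norm_num at ht1 ht2
      exact ⟨le_rfl, by omega, Or.inr (Or.inl ⟨rfl, by omega⟩)⟩
    · norm_num at ht1 ht2
      have h2 : μ ≠ 4 := fun h2 => h54 ⟨rfl, h2⟩
      refine ⟨by norm_num, by omega, Or.inr (Or.inr ⟨le_rfl, by norm_num, by omega, ?_⟩)⟩
      norm_num
      omega
    · have hg3 : g / 2 = 3 := by omega
      rw [hg3] at ht1 ht2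
      refine ⟨by omega, by omega, Or.inr (Or.inr ⟨by omega, by omega, by omega, ?_⟩)⟩
      rw [hg3]
      omega
    · obtain ⟨p, hp⟩ : ∃ p, g / 2 = p := ⟨_, rfl⟩
      rw [hp] at ht1 ht2 h2
      have hT6 : 6 ≤ T := by
        have h4 : p * 6 < p * (T + 1) := by omega
        have := Nat.lt_of_mul_lt_mul_left h4
        omega
      refine ⟨by omega, by omega, Or.inl ?_⟩
      rcases Nat.mod_two_eq_zero_or_one g with h5 | h5
      · right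
        have hg' : g = 2 * p := by omega
        obtain ⟨p', rfl⟩ : ∃ p', p = p' + 4 := ⟨p - 4, by omega⟩
        obtain ⟨T', rfl⟩ : ∃ T', T = T' + 6 := ⟨T - 6, by omega⟩
        have e1 : 2 * g - 2 = 4 * p' + 14 := by omega
        have e2 : 3 * g - 5 = 6 * p' + 19 := by omega
        rw [e1, e2]
        refine ⟨h5, ?_, ?_⟩ <;> nlinarith [Nat.zero_le (p' * T')]
      · left
        have hg' : g = 2 * p + 1 := by omega
        obtain ⟨p', rfl⟩ : ∃ p', p = p' + 4 := ⟨p - 4, by omega⟩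
        obtain ⟨T', rfl⟩ : ∃ T', T = T' + 6 := ⟨T - 6, by omega⟩
        have e1 : 2 * g - 3 = 4 * p' + 15 := by omega
        rw [e1]
        nlinarith [Nat.zero_le (p' * T')]
    · have hT1 : 1 ≤ T := by
        by_contra hcon
        have : T = 0 := by omega
        subst this
        omega
      refine ⟨?_, hT1, Or.inl (Or.inl h2)⟩
      by_contra hcon
      have hg3 : g = 3 := by omega
      subst hg3
      norm_num at ht1 ht2 h2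
      omega
    · have hT1 : 1 ≤ T := by
        by_contra hcon
        have : T = 0 := by omega
        subst this
        omega
      exact ⟨by omega, hT1, Or.inl (Or.inr ⟨h1, h2, h3⟩)⟩
  obtain ⟨hg4, hT1, hC⟩ := key
  rcases hC with hC | hC
  · exact final_of_reg Δ μ g T hg4 hT1 hμΔ ht ht1 ht2 (closedReg_cond hT1 hg4 hC)
  · have hreg : ClosedReg Δ T μ g := @closedReg_three @hTRE Pool.Agent.W733.KG.CLS.main
      Pool.Agent.W592.KG.DEG.main Pool.Agent.W33.KG.EVN.main Pool.Agent.W2.KG.main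
      Pool.Agent.W384.KG.MOR.main Δ T μ g hC
    exact final_of_reg Δ μ g T hg4 hT1 hμΔ ht ht1 ht2 hreg

end Pool.Agent.Results.MP_633d19_co.LargeDegree
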